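import Pool.Agent.U280.OD.Stm

/-!
# Project OD, package GN: optimization and constants
-/

set_option autoImplicit false

open MeasureTheory Set

namespace Pool.Agent.U55.OD

open Pool.Agent.U280.OD

theorem t_G : S_G := by
  intro d ρ t A Φ hd hρ ht hA hΦ h
  have hd0 : (0 : ℝ) < d := by exact_mod_cast hd
  rcases hρ.eq_or_lt with h0 | h0
  · rw [← h0, Real.zero_rpow (by positivity), mul_zero]
    exact ht
  obtain ⟨s, hs⟩ : ∃ s, s = (A * (((d : ℝ) + 2) / 2) ^ 2 / ρ) ^ (2 / (d : ℝ)) := ⟨_, rfl⟩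
  have hB : 0 < A * (((d : ℝ) + 2) / 2) ^ 2 / ρ := by positivity
  have hs0 : 0 < s := by rw [hs]; exact Real.rpow_pos_of_pos hB _
  have h1 := h s hs0
  have h2 : A * s ^ (-(d : ℝ) / 2) = (2 / ((d : ℝ) + 2)) ^ 2 * ρ := by
    rw [hs, ← Real.rpow_mul hB.le, show 2 / (d : ℝ) * (-(d : ℝ) / 2) = -1 by field_simp,
      Real.rpow_neg_one]
    field_simp
  rw [h2, Real.sqrt_mul (sq_nonneg _), Real.sqrt_sq (by positivity)] at h1
  have h3 : (d : ℝ) / ((d : ℝ) + 2) * Real.sqrt ρ ≤ Real.sqrt (s * Φ * t) := by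
    have e : (d : ℝ) / ((d : ℝ) + 2) = 1 - 2 / ((d : ℝ) + 2) := by field_simp; ring
    rw [e]
    linarith
  have h4 : ((d : ℝ) / ((d : ℝ) + 2)) ^ 2 * ρ ≤ s * Φ * t := by
    have h5 := pow_le_pow_left₀ (by positivity) h3 2
    rw [mul_pow, Real.sq_sqrt hρ, Real.sq_sqrt (by positivity)] at h5
    exact h5
  have h6 : s * ρ ^ (2 / (d : ℝ)) * (2 / ((d : ℝ) + 2)) ^ (4 / (d : ℝ)) = A ^ (2 / (d : ℝ)) := by
    rw [hs, show (4 : ℝ) / (d : ℝ) = 2 * (2 / (d : ℝ)) by ring, Real.rpow_mul (by positivity),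
      ← Real.mul_rpow hB.le h0.le, ← Real.mul_rpow (by positivity) (by positivity)]
    congr 1
    rw [Real.rpow_two]
    field_simp
  have h7 : ρ ^ (1 + 2 / (d : ℝ)) = ρ * ρ ^ (2 / (d : ℝ)) := by
    rw [Real.rpow_add h0, Real.rpow_one]
  have hA' : 0 < A ^ (2 / (d : ℝ)) := Real.rpow_pos_of_pos hA _
  rw [h7, div_mul_eq_mul_div, div_le_iff₀ (by positivity)]
  have hr : 0 < ρ ^ (2 / (d : ℝ)) := Real.rpow_pos_of_pos h0 _
  have hq : 0 < (2 / ((d : ℝ) + 2)) ^ (4 / (d : ℝ)) := Real.rpow_pos_of_pos (by positivity) _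
  calc (2 / ((d : ℝ) + 2)) ^ (4 / (d : ℝ)) * ((d : ℝ) / ((d : ℝ) + 2)) ^ 2 *
        (ρ * ρ ^ (2 / (d : ℝ)))
      = (((d : ℝ) / ((d : ℝ) + 2)) ^ 2 * ρ) * (ρ ^ (2 / (d : ℝ)) *
          (2 / ((d : ℝ) + 2)) ^ (4 / (d : ℝ))) := by ring
    _ ≤ (s * Φ * t) * (ρ ^ (2 / (d : ℝ)) * (2 / ((d : ℝ) + 2)) ^ (4 / (d : ℝ))) :=
        mul_le_mul_of_nonneg_right h4 (by positivity)
    _ = t * (Φ * (s * ρ ^ (2 / (d : ℝ)) * (2 / ((d : ℝ) + 2)) ^ (4 / (d : ℝ)))) := by ring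
    _ = t * (Φ * A ^ (2 / (d : ℝ))) := by rw [h6]

theorem vol_pos (d : ℕ) : 0 < (volume (Metric.ball (0 : E d) 1)).toReal :=
  ENNReal.toReal_pos (Metric.measure_ball_pos _ _ one_pos).ne' measure_ball_lt_top.ne

theorem n_one (d : ℕ) (hd : 1 ≤ d) :
    (2 / ((d : ℝ) + 2)) ^ (4 / (d : ℝ)) * ((d : ℝ) / ((d : ℝ) + 2)) ^ 2 /
      (2 * Real.log 2 / Real.pi * (1 / 2 * (8 * Real.pi) ^ (-(d : ℝ) / 2)) ^ (2 / (d : ℝ))) =
    fac d * Kcl d := by
  have hd0 : (0 : ℝ) < d := by exact_mod_cast hd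
  have hω := vol_pos d
  unfold fac Kcl
  generalize (volume (Metric.ball (0 : E d) 1)).toReal = ω at hω ⊢
  have hpi := Real.pi_pos
  have hl : 0 < Real.log 2 := Real.log_pos (by norm_num)
  have e1 : (1 / 2 * (8 * Real.pi) ^ (-(d : ℝ) / 2)) ^ (2 / (d : ℝ)) =
      (1 / 2) ^ (2 / (d : ℝ)) * (8 * Real.pi)⁻¹ := by
    rw [Real.mul_rpow (by norm_num) (Real.rpow_nonneg (by positivity) _),
      ← Real.rpow_mul (by positivity), show -(d : ℝ) / 2 * (2 / (d : ℝ)) = -1 by field_simp,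
      Real.rpow_neg_one]
  have e2 : (8 * ω / ((d : ℝ) + 2) ^ 2) ^ (2 / (d : ℝ)) =
      (2 / ((d : ℝ) + 2)) ^ (4 / (d : ℝ)) * (2 : ℝ) ^ (2 / (d : ℝ)) * ω ^ (2 / (d : ℝ)) := by
    rw [show (4 : ℝ) / (d : ℝ) = 2 * (2 / (d : ℝ)) by ring, Real.rpow_mul (by positivity),
      ← Real.mul_rpow (by positivity) (by norm_num), ← Real.mul_rpow (by positivity) hω.le]
    congr 1
    rw [Real.rpow_two]
    field_simp
    ring
  have e3 : ((1 : ℝ) / 2) ^ (2 / (d : ℝ)) * (2 : ℝ) ^ (2 / (d : ℝ)) = 1 := by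
    rw [← Real.mul_rpow (by norm_num) (by norm_num)]
    norm_num
  rw [e1, e2]
  have hω' : 0 < ω ^ (2 / (d : ℝ)) := Real.rpow_pos_of_pos hω _
  have h2 : 0 < ((1 : ℝ) / 2) ^ (2 / (d : ℝ)) := Real.rpow_pos_of_pos (by norm_num) _
  have e4 : (2 : ℝ) ^ (2 / (d : ℝ)) = (((1 : ℝ) / 2) ^ (2 / (d : ℝ)))⁻¹ :=
    eq_inv_of_mul_eq_one_right e3
  rw [e4]
  field_simp
  ring

theorem fac_one : 1.51 ≤ fac 1 := by
  unfold fac
  have hv : (volume (Metric.ball (0 : E 1) 1)).toReal = 2 := by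
    rw [InnerProductSpace.volume_ball_of_dim_odd (k := 0) (by simp)]
    simp
  rw [hv]
  have hl : 0 < Real.log 2 := Real.log_pos (by norm_num)
  have h1 := Real.log_two_lt_d9
  rw [show (2 : ℝ) / ((1 : ℕ) : ℝ) = 2 by norm_num, Real.rpow_two]
  push_cast
  rw [div_mul_eq_mul_div, le_div_iff₀ (by positivity)]
  norm_num
  linarith

theorem fac_two : 1.13 ≤ fac 2 := by
  unfold fac
  have hv : (volume (Metric.ball (0 : E 2) 1)).toReal = Real.pi := by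
    rw [EuclideanSpace.volume_ball_fin_two]
    simp [Real.pi_pos.le]
  rw [hv]
  have hl : 0 < Real.log 2 := Real.log_pos (by norm_num)
  have h1 := Real.log_two_lt_d9
  have h2 := Real.pi_gt_d6
  rw [show (2 : ℝ) / ((2 : ℕ) : ℝ) = 1 by norm_num, Real.rpow_one]
  push_cast
  rw [div_mul_eq_mul_div, le_div_iff₀ (by positivity)]
  linarith

theorem fac_three : 1.05 ≤ fac 3 := by
  unfold fac
  have hv : (volume (Metric.ball (0 : E 3) 1)).toReal = Real.pi * 4 / 3 := by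
    rw [EuclideanSpace.volume_ball_fin_three]
    simp
    positivity
  rw [hv]
  have hl : 0 < Real.log 2 := Real.log_pos (by norm_num)
  have h1 := Real.log_two_lt_d9
  have h2 := Real.pi_gt_d6
  obtain ⟨x, hx⟩ : ∃ x, x = 8 * (Real.pi * 4 / 3) / (((3 : ℕ) : ℝ) + 2) ^ 2 := ⟨_, rfl⟩
  rw [← hx]
  have hx0 : 1.34041 ≤ x := by rw [hx]; push_cast; linarith
  have hy : 1.2131 ≤ x ^ (2 / ((3 : ℕ) : ℝ)) := by
    have h3 : (x ^ (2 / ((3 : ℕ) : ℝ))) ^ 3 = x ^ 2 := by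
      rw [← Real.rpow_natCast, ← Real.rpow_mul (by linarith), ← Real.rpow_natCast x 2]
      congr 1
      norm_num
    have h4 : (1.2131 : ℝ) ^ 3 ≤ (x ^ (2 / ((3 : ℕ) : ℝ))) ^ 3 := by
      rw [h3]
      nlinarith
    exact le_of_pow_le_pow_left₀ (by norm_num) (Real.rpow_nonneg (by linarith) _) h4
  generalize x ^ (2 / ((3 : ℕ) : ℝ)) = y at hy ⊢
  push_cast
  rw [div_mul_eq_mul_div, le_div_iff₀ (by positivity)]
  nlinarith

theorem fac_four : 1.007 ≤ fac 4 := by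
  unfold fac
  have hv : (volume (Metric.ball (0 : E 4) 1)).toReal = Real.pi ^ 2 / 2 := by
    rw [InnerProductSpace.volume_ball_of_dim_even (k := 2) (by simp)]
    simp [Nat.factorial]
    positivity
  rw [hv]
  have hl : 0 < Real.log 2 := Real.log_pos (by norm_num)
  have h1 := Real.log_two_lt_d9
  have h2 := Real.pi_gt_d6
  have h3 : (8 * (Real.pi ^ 2 / 2) / (((4 : ℕ) : ℝ) + 2) ^ 2) ^ (2 / ((4 : ℕ) : ℝ)) = Real.pi / 3 := by
    rw [show (2 : ℝ) / ((4 : ℕ) : ℝ) = 1 / 2 by norm_num, ← Real.sqrt_eq_rpow,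
      show 8 * (Real.pi ^ 2 / 2) / (((4 : ℕ) : ℝ) + 2) ^ 2 = (Real.pi / 3) ^ 2 by push_cast; ring,
      Real.sqrt_sq (by positivity)]
  rw [h3]
  push_cast
  rw [div_mul_eq_mul_div, le_div_iff₀ (by positivity)]
  linarith

theorem t_N : S_N := ⟨n_one, fac_one, fac_two, fac_three, fac_four⟩

end Pool.Agent.U55.OD
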