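import Pool.Agent.U41.OD.Stm

/-!
Project OD, package UN: two critical points with the same value coincide.
-/

set_option autoImplicit false

namespace Pool.Agent.U41.OD

open MvPolynomial

theorem UN_ok : S_UN := by
  intro O _ _ n G N c 𝔭 h𝔭 hN cert Q hQ hC hp hg a hap hag l
  obtain ⟨M, hM⟩ := cert.sep l
  let φ : MvPolynomial ({j : Fin (n + 2) // j ≠ 0} ⊕ {j : Fin (n + 2) // j ≠ 0}) O →ₐ[O]
      (MvPolynomial {j : Fin (n + 2) // j ≠ 0} O ⧸ Q) :=
    aeval (Sum.elim (fun l => Ideal.Quotient.mkₐ O Q (X l)) (fun l => Ideal.Quotient.mkₐ O Q (C (a l))))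
  have hl : ∀ P, φ (rename Sum.inl P) = Ideal.Quotient.mk Q P := by
    intro P
    have : (φ.comp (rename Sum.inl)) = Ideal.Quotient.mkₐ O Q := by
      apply MvPolynomial.algHom_ext
      intro i
      simp [φ]
    have h2 := congrArg (fun f => f P) this
    simpa using h2
  have hr : ∀ P, φ (rename Sum.inr P) = Ideal.Quotient.mk Q (C (eval a P)) := by
    intro P
    have : (φ.comp (rename Sum.inr)) = (Algebra.ofId O _).comp (aeval a) := by
      apply MvPolynomial.algHom_ext
      intro i
      simp only [φ, AlgHom.comp_apply, rename_X, aeval_X, Sum.elim_inr, Algebra.ofId_apply]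
      rfl
    have h2 := congrArg (fun f => f P) this
    simp only [AlgHom.comp_apply, Algebra.ofId_apply] at h2
    rw [h2, ← MvPolynomial.coe_aeval_eq_eval]
    rfl
  have hφ : φ (C N * (rename Sum.inl (X l : MvPolynomial {j : Fin (n + 2) // j ≠ 0} O) -
        rename Sum.inr (X l : MvPolynomial {j : Fin (n + 2) // j ≠ 0} O)) ^ M) = 0 := by
    have hle : Ideal.span (insert (rename Sum.inl (Pool.Agent.TH214.RM.deh 0 G) -
        rename Sum.inr (Pool.Agent.TH214.RM.deh 0 G))
        ((Set.range fun j => rename Sum.inl (pderiv j (Pool.Agent.TH214.RM.deh 0 G))) ∪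
          (Set.range fun j => rename Sum.inr (pderiv j (Pool.Agent.TH214.RM.deh 0 G)))) :
        Set (MvPolynomial ({j : Fin (n + 2) // j ≠ 0} ⊕ {j : Fin (n + 2) // j ≠ 0}) O)) ≤
        RingHom.ker φ.toRingHom := by
      rw [Ideal.span_le]
      rintro x (rfl | ⟨j, rfl⟩ | ⟨j, rfl⟩)
      · change φ _ = 0
        rw [map_sub, hl, hr, ← map_sub, Ideal.Quotient.eq_zero_iff_mem]
        have e : Pool.Agent.TH214.RM.deh 0 G - C (eval a (Pool.Agent.TH214.RM.deh 0 G)) =
            (Pool.Agent.TH214.RM.deh 0 G + C c) -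
              C (eval a (Pool.Agent.TH214.RM.deh 0 G) + c) := by
          rw [C_add]; ring
        rw [e]
        exact Q.sub_mem hg ((hC _).2 hag)
      · change φ _ = 0
        rw [hl, Ideal.Quotient.eq_zero_iff_mem]
        exact hp j
      · change φ _ = 0
        rw [hr, Ideal.Quotient.eq_zero_iff_mem]
        exact (hC _).2 (hap j)
    exact hle hM
  have hCN : φ (C N) = Ideal.Quotient.mk Q (C N) := by
    simp only [φ, ← MvPolynomial.algebraMap_eq, AlgHom.commutes]
    rfl
  rw [map_mul, map_pow, map_sub, hl, hr, hCN, ← map_sub, ← map_pow, ← map_mul,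
    Ideal.Quotient.eq_zero_iff_mem] at hφ
  rw [eval_X] at hφ
  rcases hQ.mem_or_mem hφ with h | h
  · exact absurd ((hC N).1 h) hN
  · exact hQ.mem_of_pow_mem _ h

end Pool.Agent.U41.OD
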